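import Mathlib

/-!
Definitions used in the statement, following the problem file.
-/

set_option autoImplicit false

namespace Pool.Agent.Lib.MP_2823fe_lc

/-- The equivalence relations on `ℕ` with infinitely many classes. -/
def Einf : Type := {A : Setoid ℕ // Infinite (Quotient A)}

/-- `mu A n` is the `n`-th least element of a class of `A`. -/
noncomputable def mu (A : Einf) (n : ℕ) : ℕ := Nat.nth (fun m => ∀ k, A.1.r k m → m ≤ k) n

/-- `restr A n` is the restriction of `A` to the initial segment below `mu A n`. -/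
noncomputable def restr (A : Einf) (n : ℕ) : Σ l : ℕ, Setoid (Fin l) :=
  ⟨mu A n, Setoid.comap Fin.val A.1⟩

/-- The cube `[s, B]`. -/
def cube (s : Σ l : ℕ, Setoid (Fin l)) (B : Einf) : Set Einf :=
  {A | (∀ i j, B.1.r i j → A.1.r i j) ∧ ∃ n, restr A n = s}

open Classical in
/-- The code `x_A`. -/
noncomputable def code (A : Einf) : ℕ × ℕ → Bool := fun p => decide (A.1.r p.2 (mu A p.1))

/-- The Polish topology, induced by `A ↦ x_A`. -/
noncomputable instance topEinf : TopologicalSpace Einf := TopologicalSpace.induced code inferInstance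

/-- The Borel sets. -/
noncomputable instance measEinf : MeasurableSpace Einf := borel Einf

/-- Membership in the ideal `I(E_∞)`. -/
def InI (X : Set Einf) : Prop :=
  ∀ s A, (cube s A).Nonempty → ∃ B ∈ cube s A, cube s B ∩ X = ∅

/-- Borel reducibility. -/
def BorelRed {X Y : Type} [MeasurableSpace X] [MeasurableSpace Y]
    (E : X → X → Prop) (F : Y → Y → Prop) : Prop :=
  ∃ f : X → Y, Measurable f ∧ ∀ x x', E x x' ↔ F (f x) (f x')

/-- Hypersmooth equivalence relations. -/
def Hypersmooth {Y : Type} [MeasurableSpace Y] (F : Y → Y → Prop) : Prop :=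
  ∃ G : ℕ → Y → Y → Prop,
    (∀ n, Equivalence (G n) ∧ BorelRed (G n) (fun u v : ℕ → Bool => u = v)) ∧
    (∀ n y y', G n y y' → G (n + 1) y y') ∧ ∀ y y', F y y' ↔ ∃ n, G n y y'

/-- The ideal `I(E_∞)` canonizes `E` to `F`. -/
def Canonizes {Y : Type} [MeasurableSpace Y] (E : Einf → Einf → Prop) (F : Y → Y → Prop) :
    Prop :=
  ∀ B : Set Einf, MeasurableSet B → ¬ InI B →
    ∃ C : Set Einf, C ⊆ B ∧ MeasurableSet C ∧ ¬ InI C ∧ BorelRed (fun x y : C => E x y) F

end Pool.Agent.Lib.MP_2823fe_lc
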