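import Mathlib

/-!
Combinatorial core.  A partition of `ℕ` into infinitely many classes is coded by the map sending
each number to the least element of its class.
-/

set_option autoImplicit false

namespace Pool.Agent.Lib.MP_2823fe_lc

/-- A partition of `ℕ` with infinitely many classes, coded by its least-element map. -/
structure Ret where
  f : ℕ → ℕ
  le : ∀ m, f m ≤ m
  idem : ∀ m, f (f m) = f m
  inf : ∀ n, ∃ p, n ≤ p ∧ f p = p

/-- `A` is coarser than `B`. -/
def Le (A B : Ret) : Prop := ∀ m, A.f (B.f m) = A.f m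

/-- `A` and `B` agree below `L`. -/
def Agr (A B : Ret) (L : ℕ) : Prop := ∀ m, m < L → A.f m = B.f m

theorem Le.rfl (A : Ret) : Le A A := A.idem

theorem Le.trans {A B C : Ret} (h1 : Le A B) (h2 : Le B C) : Le A C := by
  intro m
  rw [← h1 (C.f m), h2 m, h1 m]

theorem Agr.rfl (A : Ret) (L : ℕ) : Agr A A L := fun _ _ => Eq.refl _

theorem Agr.trans {A B C : Ret} {L : ℕ} (h1 : Agr A B L) (h2 : Agr B C L) : Agr A C L :=
  fun m hm => (h1 m hm).trans (h2 m hm)

theorem Agr.symm {A B : Ret} {L : ℕ} (h1 : Agr A B L) : Agr B A L :=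
  fun m hm => (h1 m hm).symm

theorem Agr.mono {A B : Ret} {L L' : ℕ} (h1 : Agr A B L) (h : L' ≤ L) : Agr A B L' :=
  fun m hm => h1 m (lt_of_lt_of_le hm h)

theorem Ret.zero (A : Ret) : A.f 0 = 0 := Nat.le_zero.mp (A.le 0)

/-- Positivity of `X` below the node `(T, L)` with reservoir `B`. -/
def P (X : Set Ret) (T : Ret) (L : ℕ) (B : Ret) : Prop :=
  ∀ B', Le B' B → Agr B' B L → ∃ A ∈ X, Le A B' ∧ Agr A T L

theorem P.mono {X : Set Ret} {T B B₁ : Ret} {L : ℕ} (h : P X T L B) (h1 : Le B₁ B)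
    (h2 : Agr B₁ B L) : P X T L B₁ :=
  fun B' hb ha => h B' (hb.trans h1) (ha.trans h2)

/-- The copying construction. -/
theorem copy {X : Set Ret} {T B : Ret} {M L : ℕ} (hP : P X T M B) (hML : M ≤ L)
    (hTB : ∀ m, m < M → T.f (B.f m) = T.f m) (w : ℕ → ℕ) (hw1 : ∀ m, w m < M)
    (hw2 : ∀ m, T.f (w m) = w m) :
    ∃ T₁ : Ret, Le T₁ B ∧ Agr T₁ T M ∧ P X T₁ L B ∧
      ∀ m, m < L → T₁.f m = if B.f m < M then T.f (B.f m) else w (B.f m) := by
  have hfix : ∀ v, v < M → T.f v = v → B.f v = v := by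
    intro v hv h
    have h1 := hTB v hv
    have h2 := T.le (B.f v)
    have h3 := B.le v
    omega
  let g : ℕ → ℕ := fun m =>
    if B.f m < M then T.f (B.f m) else if B.f m < L then w (B.f m) else B.f m
  have gsmall : ∀ v, v < M → T.f v = v → g v = v := by
    intro v hv h
    simp only [g, hfix v hv h, hv, if_true, h]
  let T₁ : Ret :=
    { f := g
      le := by
        intro m
        have h2 := T.le (B.f m)
        have h3 := B.le m
        have h4 := hw1 (B.f m)
        simp only [g]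
        split_ifs <;> omega
      idem := by
        intro m
        by_cases h1 : B.f m < M
        · have : g m = T.f (B.f m) := by simp only [g, h1, if_true]
          rw [this]
          exact gsmall _ (lt_of_le_of_lt (T.le _) h1) (T.idem _)
        · by_cases h2 : B.f m < L
          · have : g m = w (B.f m) := by simp only [g, h1, h2, if_true, if_false]
            rw [this]
            exact gsmall _ (hw1 _) (hw2 _)
          · have : g m = B.f m := by simp only [g, h1, h2, if_false]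
            rw [this]
            simp only [g, B.idem, h1, h2, if_false]
      inf := by
        intro n
        obtain ⟨p, hp1, hp2⟩ := B.inf (max n L)
        refine ⟨p, le_trans (le_max_left _ _) hp1, ?_⟩
        have h1 : ¬ p < L := by have := le_max_right n L; omega
        have h2 : ¬ p < M := by omega
        simp only [g, hp2, h1, h2, if_false] }
  have hagr : Agr T₁ T M := by
    intro m hm
    have h1 : B.f m < M := lt_of_le_of_lt (B.le m) hm
    show g m = _
    simp only [g, h1, if_true, hTB m hm]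
  have hval : ∀ m, m < L → T₁.f m = if B.f m < M then T.f (B.f m) else w (B.f m) := by
    intro m hm
    have h1 : B.f m < L := lt_of_le_of_lt (B.le m) hm
    show g m = _
    simp only [g, h1, if_true]
  refine ⟨T₁, ?_, hagr, ?_, hval⟩
  · intro m
    show g (B.f m) = g m
    simp only [g, B.idem]
  · intro B' hB' hagr'
    let g' : ℕ → ℕ := fun m => if M ≤ B'.f m ∧ B'.f m < L then w (B'.f m) else B'.f m
    have hwB' : ∀ m, B'.f (w m) = w m := by
      intro m
      rw [hagr' _ (lt_of_lt_of_le (hw1 m) hML)]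
      exact hfix _ (hw1 m) (hw2 m)
    let B'' : Ret :=
      { f := g'
        le := by
          intro m
          have h3 := B'.le m
          have h4 := hw1 (B'.f m)
          simp only [g']
          split_ifs <;> omega
        idem := by
          intro m
          by_cases h1 : M ≤ B'.f m ∧ B'.f m < L
          · have : g' m = w (B'.f m) := by simp only [g', h1, and_self, if_true]
            rw [this]
            have h2 : ¬ (M ≤ w (B'.f m) ∧ w (B'.f m) < L) := by
              have := hw1 (B'.f m); omega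
            simp only [g', hwB', h2, if_false]
          · have : g' m = B'.f m := by simp only [g', h1, if_false]
            rw [this]
            simp only [g', B'.idem, h1, if_false]
        inf := by
          intro n
          obtain ⟨p, hp1, hp2⟩ := B'.inf (max n L)
          refine ⟨p, le_trans (le_max_left _ _) hp1, ?_⟩
          have h1 : ¬ (M ≤ p ∧ p < L) := by have := le_max_right n L; omega
          simp only [g', hp2, h1, if_false] }
    have hle : Le B'' B' := by
      intro m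
      show g' (B'.f m) = g' m
      simp only [g', B'.idem]
    have hag : Agr B'' B M := by
      intro m hm
      have h1 : ¬ (M ≤ B'.f m ∧ B'.f m < L) := by have := B'.le m; omega
      show g' m = _
      simp only [g', h1, if_false]
      exact hagr' m (lt_of_lt_of_le hm hML)
    obtain ⟨A, hAX, hA1, hA2⟩ := hP B'' (hle.trans hB') hag
    refine ⟨A, hAX, hA1.trans hle, ?_⟩
    intro m hm
    rw [hval m hm, ← hA1 m]
    have h0 : B'.f m = B.f m := hagr' m hm
    have h1 : B.f m < L := lt_of_le_of_lt (B.le m) hm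
    show A.f (g' m) = _
    by_cases h2 : B.f m < M
    · have h3 : ¬ (M ≤ B.f m ∧ B.f m < L) := by omega
      simp only [g', h0, h3, h2, if_true, if_false]
      exact hA2 _ h2
    · have h3 : M ≤ B.f m ∧ B.f m < L := by omega
      simp only [g', h0, h3, h2, and_self, if_true, if_false]
      rw [hA2 _ (hw1 _), hw2]

theorem exists_chain {α : Type*} (R : ℕ → α → α → Prop) (a0 : α) (h : ∀ n a, ∃ b, R n a b) :
    ∃ c : ℕ → α, c 0 = a0 ∧ ∀ n, R n (c n) (c (n + 1)) := by
  choose F hF using h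
  refine ⟨fun n => Nat.rec a0 (fun n a => F n a) n, rfl, fun n => hF n _⟩

/-- Limits of fusion sequences. -/
theorem fusion_limit (B : ℕ → Ret) (M : ℕ → ℕ) (hM : ∀ k, M k < M (k + 1))
    (hle : ∀ k, Le (B (k + 1)) (B k)) (hag : ∀ k, Agr (B (k + 1)) (B k) (M k))
    (hfix : ∀ k, ∃ p, k ≤ p ∧ p < M (k + 1) ∧ (B (k + 1)).f p = p) :
    ∃ D : Ret, ∀ k, Le D (B k) ∧ Agr D (B k) (M k) := by
  have hsm : StrictMono M := strictMono_nat_of_lt_succ hM
  have h1 : ∀ k j, k ≤ j → Le (B j) (B k) ∧ Agr (B j) (B k) (M k) := by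
    intro k j hkj
    induction j, hkj using Nat.le_induction with
    | base => exact ⟨Le.rfl _, Agr.rfl _ _⟩
    | succ j hkj ih => exact ⟨(hle j).trans ih.1, ((hag j).mono (hsm.monotone hkj)).trans ih.2⟩
  have h2 : ∀ m k, m < M k → (B (m + 1)).f m = (B k).f m := by
    intro m k hm
    have hm' : m < M (m + 1) := lt_of_lt_of_le (Nat.lt_succ_self m) (hsm.id_le (m + 1))
    rcases le_total k (m + 1) with h | h
    · exact (h1 k (m + 1) h).2 m hm
    · exact ((h1 (m + 1) k h).2 m hm').symm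
  let D : Ret :=
    { f := fun m => (B (m + 1)).f m
      le := fun m => (B (m + 1)).le m
      idem := by
        intro m
        have hm' : m < M (m + 1) := lt_of_lt_of_le (Nat.lt_succ_self m) (hsm.id_le (m + 1))
        rw [h2 _ (m + 1) (lt_of_le_of_lt ((B (m + 1)).le m) hm'), (B (m + 1)).idem]
      inf := by
        intro n
        obtain ⟨p, hp1, hp2, hp3⟩ := hfix n
        exact ⟨p, hp1, by rw [h2 p (n + 1) hp2, hp3]⟩ }
  refine ⟨D, fun k => ⟨?_, fun m hm => h2 m k hm⟩⟩
  intro m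
  have hm' : m < M (max k (m + 1)) :=
    lt_of_lt_of_le (lt_of_lt_of_le (Nat.lt_succ_self m) (le_max_right _ _)) (hsm.id_le _)
  show (B ((B k).f m + 1)).f ((B k).f m) = (B (m + 1)).f m
  rw [h2 _ _ (lt_of_le_of_lt ((B k).le m) hm'), h2 _ _ hm']
  exact (h1 k _ (le_max_left _ _)).1 m

/-- Countable additivity of the null sets. -/
theorem sigma {X : ℕ → Set Ret} {T B : Ret} {L : ℕ} (hP : P (⋃ i, X i) T L B) :
    ∃ i T₁ M B₁, L < M ∧ Le B₁ B ∧ Agr B₁ B L ∧ Agr T₁ T L ∧ Le T₁ B₁ ∧ P (X i) T₁ M B₁ := by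
  classical
  by_contra hcon
  have hkill : ∀ i M B₁ T₁, L < M → Le B₁ B → Agr B₁ B L → Agr T₁ T L → Le T₁ B₁ →
      ∃ B₂, Le B₂ B₁ ∧ Agr B₂ B₁ M ∧ ∀ A ∈ X i, Le A B₂ → ¬ Agr A T₁ M := by
    intro i M B₁ T₁ h1 h2 h3 h4 h5
    by_contra hh
    refine hcon ⟨i, T₁, M, B₁, h1, h2, h3, h4, h5, ?_⟩
    intro B₂ h6 h7
    by_contra h8
    refine hh ⟨B₂, h6, h7, fun A hA h9 h10 => h8 ⟨A, hA, h9, h10⟩⟩
  have hfin : ∀ M B₁, L < M → Le B₁ B → Agr B₁ B L → ∀ S : Finset (ℕ × (Fin M → Fin M)),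
      ∃ B₂, Le B₂ B₁ ∧ Agr B₂ B₁ M ∧ ∀ q ∈ S, ∀ A ∈ X q.1, Le A B₂ → Agr A T L →
        ¬ ∀ m : Fin M, A.f m = q.2 m := by
    intro M B₁ h1 h2 h3 S
    induction S using Finset.induction_on with
    | empty => exact ⟨B₁, Le.rfl _, Agr.rfl _ _, by simp⟩
    | insert q S hq ih =>
      obtain ⟨B₂, h4, h5, h6⟩ := ih
      by_cases hex : ∃ T₁, Le T₁ B₂ ∧ Agr T₁ T L ∧ ∀ m : Fin M, T₁.f m = q.2 m
      · obtain ⟨T₁, h7, h8, h9⟩ := hex
        obtain ⟨B₃, h10, h11, h12⟩ :=
          hkill q.1 M B₂ T₁ h1 (h4.trans h2) ((h5.mono h1.le).trans h3) h8 h7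
        refine ⟨B₃, h10.trans h4, h11.trans h5, ?_⟩
        intro q' hq' A hA hA1 hA2 hA3
        rcases Finset.mem_insert.mp hq' with rfl | hq'
        · refine h12 A hA hA1 ?_
          intro m hm
          exact (hA3 ⟨m, hm⟩).trans (h9 ⟨m, hm⟩).symm
        · exact h6 q' hq' A hA (hA1.trans h10) hA2 hA3
      · refine ⟨B₂, h4, h5, ?_⟩
        intro q' hq' A hA hA1 hA2 hA3
        rcases Finset.mem_insert.mp hq' with rfl | hq'
        · exact hex ⟨A, hA1, hA2, hA3⟩
        · exact h6 q' hq' A hA hA1 hA2 hA3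
  have hstep : ∀ (k : ℕ) (s : Ret × ℕ), ∃ s' : Ret × ℕ, (L < s.2 ∧ Le s.1 B ∧ Agr s.1 B L) →
      (s.2 < s'.2 ∧ Le s'.1 s.1 ∧ Agr s'.1 s.1 s.2 ∧ (∃ p, k ≤ p ∧ p < s'.2 ∧ s'.1.f p = p) ∧
        ∀ i ≤ k, ∀ A ∈ X i, Le A s'.1 → ¬ Agr A T L) := by
    intro k s
    by_cases hs : L < s.2 ∧ Le s.1 B ∧ Agr s.1 B L
    · obtain ⟨B₂, h4, h5, h6⟩ :=
        hfin s.2 s.1 hs.1 hs.2.1 hs.2.2 ((Finset.range (k + 1)) ×ˢ Finset.univ)
      obtain ⟨p, hp1, hp2⟩ := B₂.inf k
      refine ⟨(B₂, max s.2 p + 1), fun _ => ⟨?_, h4, h5, ⟨p, hp1, ?_, hp2⟩, ?_⟩⟩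
      · have := le_max_left s.2 p; show s.2 < max s.2 p + 1; omega
      · have := le_max_right s.2 p; show p < max s.2 p + 1; omega
      · intro i hi A hA hA1 hA2
        refine h6 (i, fun m => ⟨A.f m, lt_of_le_of_lt (A.le m) m.2⟩) ?_ A hA hA1 hA2
          (fun m => rfl)
        simp [hi]
    · exact ⟨s, fun h => absurd h hs⟩
  obtain ⟨c, hc0, hc⟩ := exists_chain _ (B, L + 1) hstep
  have hinv : ∀ k, L < (c k).2 ∧ Le (c k).1 B ∧ Agr (c k).1 B L := by
    intro k
    induction k with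
    | zero => rw [hc0]; exact ⟨Nat.lt_succ_self L, Le.rfl _, Agr.rfl _ _⟩
    | succ k ih =>
      obtain ⟨h1, h2, h3, -, -⟩ := hc k ih
      exact ⟨ih.1.trans h1, h2.trans ih.2.1, (h3.mono ih.1.le).trans ih.2.2⟩
  obtain ⟨D, hD⟩ := fusion_limit (fun k => (c k).1) (fun k => (c k).2)
    (fun k => (hc k (hinv k)).1) (fun k => (hc k (hinv k)).2.1)
    (fun k => (hc k (hinv k)).2.2.1) (fun k => (hc k (hinv k)).2.2.2.1)
  obtain ⟨A, hA, hA1, hA2⟩ := hP D ((hD 0).1.trans (hinv 0).2.1)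
    (((hD 0).2.mono (hinv 0).1.le).trans (hinv 0).2.2)
  obtain ⟨i, hi⟩ := Set.mem_iUnion.mp hA
  exact (hc i (hinv i)).2.2.2.2 i le_rfl A hi (hA1.trans (hD (i + 1)).1) hA2

end Pool.Agent.Lib.MP_2823fe_lc
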