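import Mathlib
import Pool.Agent.Lib.MP_2823fe_lc.Core

/-!
Forcing with pairs of nodes over a common reservoir.
-/

set_option autoImplicit false

namespace Pool.Agent.Lib.MP_2823fe_lc

/-- Cylinders in Baire space. -/
def cyl (z : ℕ → ℕ) (k : ℕ) : Set (ℕ → ℕ) := {y | ∀ i, i < k → y i = z i}

theorem cyl_sub {z y : ℕ → ℕ} {k j : ℕ} (h : y ∈ cyl z k) (hkj : k ≤ j) : cyl y j ⊆ cyl z k :=
  fun _ hx i hi => (hx i (lt_of_lt_of_le hi hkj)).trans (h i hi)

theorem cyl_self (z : ℕ → ℕ) (k : ℕ) : z ∈ cyl z k := fun _ _ => rfl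

theorem cyl_eq_iUnion (z : ℕ → ℕ) (k : ℕ) :
    cyl z k = ⋃ i, cyl (Function.update z k i) (k + 1) := by
  ext y
  simp only [Set.mem_iUnion]
  constructor
  · intro hy
    refine ⟨y k, fun i hi => ?_⟩
    by_cases hik : i = k
    · subst hik; simp
    · rw [Function.update_of_ne hik]; exact hy i (by omega)
  · rintro ⟨i, hi⟩ j hj
    rw [hi j (by omega), Function.update_of_ne (by omega)]

/-- The two partitions generate the same ideal. -/
def SameR (A B : Ret) : Prop :=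
  (∀ a, ∃ b, ∀ m, A.f m ≤ a → B.f m ≤ b) ∧ (∀ a, ∃ b, ∀ m, B.f m ≤ a → A.f m ≤ b)

variable {h : (ℕ → ℕ) → Ret}

/-- A pair of nodes over a common reservoir. -/
structure Cond (h : (ℕ → ℕ) → Ret) where
  T : Ret
  T' : Ret
  B : Ret
  M : ℕ
  z : ℕ → ℕ
  z' : ℕ → ℕ
  k : ℕ
  k' : ℕ
  hM : 0 < M
  hT : Le T B
  hT' : Le T' B
  pos : P (h '' cyl z k) T M B
  pos' : P (h '' cyl z' k') T' M B

/-- Exchange the two nodes. -/
def Cond.swap (p : Cond h) : Cond h :=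
  ⟨p.T', p.T, p.B, p.M, p.z', p.z, p.k', p.k, p.hM, p.hT', p.hT, p.pos', p.pos⟩

/-- One half of the commitment at level `N`. -/
def Half (N M : ℕ) (S S' : Ret) : Prop :=
  ∀ m, m < M → ∀ v, v < N → S.f v = v → S.f m < v → S'.f m < N

/-- The commitment at level `N`. -/
def Good (N : ℕ) (p : Cond h) : Prop := Half N p.M p.T p.T' ∧ Half N p.M p.T' p.T

theorem good_self (p : Cond h) : Good p.M p :=
  ⟨fun m hm _ _ _ _ => lt_of_le_of_lt (p.T'.le m) hm,
    fun m hm _ _ _ _ => lt_of_le_of_lt (p.T.le m) hm⟩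

/-- Extension of conditions preserving the commitments up to level `N`. -/
structure Ext (N : ℕ) (p q : Cond h) : Prop where
  M_le : p.M ≤ q.M
  k_le : p.k ≤ q.k
  k'_le : p.k' ≤ q.k'
  agr : Agr q.T p.T p.M
  agr' : Agr q.T' p.T' p.M
  mem : q.z ∈ cyl p.z p.k
  mem' : q.z' ∈ cyl p.z' p.k'
  good : ∀ N', N' ≤ N → Good N' p → Good N' q

theorem Ext.rfl (N : ℕ) (p : Cond h) : Ext N p p :=
  ⟨le_rfl, le_rfl, le_rfl, Agr.rfl _ _, Agr.rfl _ _, cyl_self _ _, cyl_self _ _, fun _ _ h => h⟩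

theorem Ext.trans {N : ℕ} {p q r : Cond h} (h1 : Ext N p q) (h2 : Ext N q r) : Ext N p r :=
  ⟨h1.M_le.trans h2.M_le, h1.k_le.trans h2.k_le, h1.k'_le.trans h2.k'_le,
    (h2.agr.mono h1.M_le).trans h1.agr, (h2.agr'.mono h1.M_le).trans h1.agr',
    cyl_sub h1.mem h1.k_le h2.mem, cyl_sub h1.mem' h1.k'_le h2.mem',
    fun N' hN hg => h2.good N' hN (h1.good N' hN hg)⟩

theorem Ext.mono {N N₁ : ℕ} {p q : Cond h} (h1 : Ext N p q) (hN : N₁ ≤ N) : Ext N₁ p q :=
  ⟨h1.M_le, h1.k_le, h1.k'_le, h1.agr, h1.agr', h1.mem, h1.mem',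
    fun N' hN' hg => h1.good N' (hN'.trans hN) hg⟩

theorem Ext.swap {N : ℕ} {p q : Cond h} (h1 : Ext N p.swap q) : Ext N p q.swap :=
  ⟨h1.M_le, h1.k'_le, h1.k_le, h1.agr', h1.agr, h1.mem', h1.mem,
    fun N' hN' hg => (h1.good N' hN' ⟨hg.2, hg.1⟩).symm⟩

/-- The largest fixed point of `S` that is at most `n`. -/
def top (S : Ret) (n : ℕ) : ℕ := Nat.findGreatest (fun v => S.f v = v) n

theorem top_le (S : Ret) (n : ℕ) : top S n ≤ n := Nat.findGreatest_le n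

theorem top_fix (S : Ret) (n : ℕ) : S.f (top S n) = top S n :=
  Nat.findGreatest_spec (P := fun v => S.f v = v) (Nat.zero_le n) S.zero

theorem le_top' (S : Ret) {n v : ℕ} (hv : v ≤ n) (h : S.f v = v) : v ≤ top S n :=
  Nat.le_findGreatest (P := fun v => S.f v = v) hv h

theorem half_step (p : Cond h) : ∃ q : Cond h, Ext p.M p q ∧ p.M < q.M ∧ p.k < q.k := by
  have hpos := p.pos
  rw [cyl_eq_iUnion, Set.image_iUnion] at hpos
  obtain ⟨i, T₁, M₁, B₁, h1, h2, h3, h4, h5, h6⟩ := sigma hpos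
  have hM := p.hM
  have hTB : ∀ m, m < p.M → p.T'.f (B₁.f m) = p.T'.f m := by
    intro m hm
    rw [h3 m hm, p.hT' m]
  obtain ⟨T₂, h7, h8, h9, h10⟩ := copy (p.pos'.mono h2 h3) h1.le hTB
    (fun m => top p.T' (min (T₁.f m) (p.M - 1)))
    (fun m => by have := top_le p.T' (min (T₁.f m) (p.M - 1)); omega)
    (fun m => top_fix _ _)
  refine ⟨⟨T₁, T₂, B₁, M₁, Function.update p.z p.k i, p.z', p.k + 1, p.k', by omega, h5, h7,
    h6, h9⟩, ⟨h1.le, Nat.le_succ _, le_rfl, h4, h8, ?_, cyl_self _ _, ?_⟩, h1, Nat.lt_succ_self _⟩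
  · intro j hj
    exact Function.update_of_ne (by omega) _ _
  · intro N hN hg
    have hN : N ≤ p.M := hN
    constructor
    · intro m hm v hv hv1 hv2
      change m < M₁ at hm
      change T₁.f v = v at hv1
      change T₁.f m < v at hv2
      change T₂.f m < N
      rw [h10 m hm]
      rw [← h5 m] at hv2
      split_ifs with hc
      · rw [h4 _ hc] at hv2
        rw [h4 _ (by omega)] at hv1
        exact hg.1 _ hc v hv hv1 hv2
      · have := top_le p.T' (min (T₁.f (B₁.f m)) (p.M - 1))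
        omega
    · intro m hm v hv hv1 hv2
      change m < M₁ at hm
      change T₂.f v = v at hv1
      change T₂.f m < v at hv2
      change T₁.f m < N
      rw [h10 m hm] at hv2
      rw [← h5 m]
      rw [h8 _ (by omega)] at hv1
      split_ifs at hv2 with hc
      · rw [h4 _ hc]
        exact hg.2 _ hc v hv hv1 hv2
      · by_contra hh
        have := le_top' p.T' (n := min (T₁.f (B₁.f m)) (p.M - 1)) (v := v) (by omega) hv1
        omega

theorem full_step (p : Cond h) :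
    ∃ q : Cond h, Ext p.M p q ∧ p.M < q.M ∧ p.k < q.k ∧ p.k' < q.k' := by
  obtain ⟨q, h1, h2, h3⟩ := half_step p
  obtain ⟨r, h4, h5, h6⟩ := half_step q.swap
  have h7 : Ext q.M q r.swap := Ext.swap h4
  refine ⟨r.swap, h1.trans (h7.mono h1.M_le), lt_of_lt_of_le h2 h7.M_le,
    lt_of_lt_of_le h3 h7.k_le, lt_of_le_of_lt h1.k'_le h6⟩

theorem viol_step (N : ℕ) (p : Cond h) (hN : N ≤ p.M) (a : ℕ) (ha1 : p.T.f a = a) (ha2 : a < N)
    (ha3 : ∀ v, v < N → p.T.f v = v → v ≤ a) :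
    ∃ q : Cond h, Ext N p q ∧
      ∃ m, m < q.M ∧ q.T.f m = a ∧ ∀ v, v < p.M → p.T'.f v = v → v ≤ q.T'.f m := by
  obtain ⟨m, hm1, hm2⟩ := p.B.inf p.M
  have hM := p.hM
  obtain ⟨T₁, h1, h2, h3, h4⟩ := copy (L := m + 1) p.pos (by omega) (fun j _ => p.hT j)
    (fun _ => a) (fun _ => by omega) (fun _ => ha1)
  obtain ⟨T₂, h5, h6, h7, h8⟩ := copy (L := m + 1) p.pos' (by omega) (fun j _ => p.hT' j)
    (fun _ => top p.T' (p.M - 1)) (fun _ => by have := top_le p.T' (p.M - 1); omega)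
    (fun _ => top_fix _ _)
  refine ⟨⟨T₁, T₂, p.B, m + 1, p.z, p.z', p.k, p.k', by omega, h1, h5, h3, h7⟩,
    ⟨by show p.M ≤ m + 1; omega, le_rfl, le_rfl, h2, h6, cyl_self _ _, cyl_self _ _, ?_⟩,
    m, Nat.lt_succ_self m, ?_, ?_⟩
  · intro N' hN' hg
    constructor
    · intro j hj v hv hv1 hv2
      change j < m + 1 at hj
      change T₁.f v = v at hv1
      change T₁.f j < v at hv2
      change T₂.f j < N'
      rw [h4 j hj] at hv2
      rw [h8 j hj]
      rw [h2 _ (by omega)] at hv1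
      split_ifs at hv2 ⊢ with hc
      · exact hg.1 _ hc v hv hv1 hv2
      · have := ha3 v (by omega) hv1
        omega
    · intro j hj v hv hv1 hv2
      change j < m + 1 at hj
      change T₂.f v = v at hv1
      change T₂.f j < v at hv2
      change T₁.f j < N'
      rw [h8 j hj] at hv2
      rw [h4 j hj]
      rw [h6 _ (by omega)] at hv1
      split_ifs at hv2 ⊢ with hc
      · exact hg.2 _ hc v hv hv1 hv2
      · have := le_top' p.T' (n := p.M - 1) (v := v) (by omega) hv1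
        omega
  · show T₁.f m = a
    rw [h4 m (Nat.lt_succ_self m), hm2, if_neg (by omega)]
  · intro v hv hv1
    show v ≤ T₂.f m
    rw [h8 m (Nat.lt_succ_self m), hm2, if_neg (by omega)]
    exact le_top' p.T' (by omega) hv1

theorem one_limit (hc : ∀ m z, ∃ n, ∀ y ∈ cyl z n, (h y).f m = (h z).f m)
    (T : ℕ → Ret) (M : ℕ → ℕ) (z : ℕ → ℕ → ℕ) (k : ℕ → ℕ)
    (hM : ∀ j, M j ≤ M (j + 1)) (hk : ∀ j, k j < k (j + 1))
    (hT : ∀ j, Agr (T (j + 1)) (T j) (M j)) (hz : ∀ j, z (j + 1) ∈ cyl (z j) (k j))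
    (hne : ∀ j, ∃ y ∈ cyl (z j) (k j), Agr (h y) (T j) (M j)) :
    ∃ x, ∀ j, x ∈ cyl (z j) (k j) ∧ Agr (h x) (T j) (M j) := by
  have hsm : StrictMono k := strictMono_nat_of_lt_succ hk
  have hmm : Monotone M := monotone_nat_of_le_succ hM
  have h1 : ∀ i j, i ≤ j → z j ∈ cyl (z i) (k i) ∧ Agr (T j) (T i) (M i) := by
    intro i j hij
    induction j, hij using Nat.le_induction with
    | base => exact ⟨cyl_self _ _, Agr.rfl _ _⟩
    | succ j hij ih =>
      exact ⟨cyl_sub ih.1 (hsm.monotone hij) (hz j), ((hT j).mono (hmm hij)).trans ih.2⟩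
  have h2 : ∀ j, (fun i => z (i + 1) i) ∈ cyl (z j) (k j) := by
    intro j i hi
    have hi' : i < k (i + 1) := lt_of_lt_of_le (Nat.lt_succ_self i) (hsm.id_le (i + 1))
    rcases le_total j (i + 1) with hh | hh
    · exact (h1 j (i + 1) hh).1 i hi
    · exact ((h1 (i + 1) j hh).1 i hi').symm
  refine ⟨fun i => z (i + 1) i, fun j => ⟨h2 j, ?_⟩⟩
  intro m hm
  obtain ⟨n, hn⟩ := hc m (fun i => z (i + 1) i)
  obtain ⟨y, hy1, hy2⟩ := hne (max j n)
  have hn' : n ≤ k (max j n) := (le_max_right j n).trans (hsm.id_le _)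
  rw [← hn y (fun i hi => (hy1 i (lt_of_lt_of_le hi hn')).trans
    (h2 (max j n) i (lt_of_lt_of_le hi hn')).symm),
    hy2 m (lt_of_lt_of_le hm (hmm (le_max_left j n)))]
  exact (h1 j _ (le_max_left j n)).2 m hm

theorem pair_limit (hc : ∀ m z, ∃ n, ∀ y ∈ cyl z n, (h y).f m = (h z).f m)
    (c : ℕ → Cond h) (hext : ∀ j, Ext 0 (c j) (c (j + 1)))
    (hk : ∀ j, (c j).k < (c (j + 1)).k) (hk' : ∀ j, (c j).k' < (c (j + 1)).k') :
    ∃ x x', (∀ j, x ∈ cyl (c j).z (c j).k ∧ Agr (h x) (c j).T (c j).M) ∧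
      (∀ j, x' ∈ cyl (c j).z' (c j).k' ∧ Agr (h x') (c j).T' (c j).M) := by
  obtain ⟨x, hx⟩ := one_limit hc (fun j => (c j).T) (fun j => (c j).M) (fun j => (c j).z)
    (fun j => (c j).k) (fun j => (hext j).M_le) hk (fun j => (hext j).agr)
    (fun j => (hext j).mem) (fun j => by
      obtain ⟨A, ⟨y, hy, rfl⟩, -, hA⟩ := (c j).pos _ (Le.rfl _) (Agr.rfl _ _)
      exact ⟨y, hy, hA⟩)
  obtain ⟨x', hx'⟩ := one_limit hc (fun j => (c j).T') (fun j => (c j).M) (fun j => (c j).z')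
    (fun j => (c j).k') (fun j => (hext j).M_le) hk' (fun j => (hext j).agr')
    (fun j => (hext j).mem') (fun j => by
      obtain ⟨A, ⟨y, hy, rfl⟩, -, hA⟩ := (c j).pos' _ (Le.rfl _) (Agr.rfl _ _)
      exact ⟨y, hy, hA⟩)
  exact ⟨x, x', hx, hx'⟩

/-- Any open relation containing all inequivalent pairs can be forced. -/
theorem inner (hc : ∀ m z, ∃ n, ∀ y ∈ cyl z n, (h y).f m = (h z).f m)
    (D : (ℕ → ℕ) → (ℕ → ℕ) → Prop)
    (hDo : ∀ x x', D x x' → ∃ r, ∀ y ∈ cyl x r, ∀ y' ∈ cyl x' r, D y y')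
    (hD : ∀ x x', ¬ SameR (h x) (h x') → D x x') (p : Cond h) :
    ∃ q : Cond h, Ext p.M p q ∧ ∀ y ∈ cyl q.z q.k, ∀ y' ∈ cyl q.z' q.k', D y y' := by
  have hM := p.hM
  let a := top p.T (p.M - 1)
  have ha2 : a < p.M := by have := top_le p.T (p.M - 1); omega
  have hstep : ∀ (_ : ℕ) (q : Cond h), ∃ r : Cond h, Ext p.M p q →
      (Ext p.M q r ∧ q.M < r.M ∧ q.k < r.k ∧ q.k' < r.k' ∧
        ∃ m, m < r.M ∧ r.T.f m = a ∧ ∀ v, v < q.M → q.T'.f v = v → v ≤ r.T'.f m) := by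
    intro _ q
    by_cases hq : Ext p.M p q
    · obtain ⟨r, h1, m, h2, h3, h4⟩ := viol_step p.M q hq.M_le a
        (by rw [hq.agr a ha2]; exact top_fix _ _) ha2
        (fun v hv hv1 => le_top' p.T (by omega) (by rw [← hq.agr v hv]; exact hv1))
      obtain ⟨s, h5, h6, h7, h8⟩ := full_step r
      refine ⟨s, fun _ => ⟨h1.trans (h5.mono (hq.M_le.trans h1.M_le)),
        lt_of_le_of_lt h1.M_le h6, lt_of_le_of_lt h1.k_le h7, lt_of_le_of_lt h1.k'_le h8,
        m, h2.trans h6, ?_, ?_⟩⟩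
      · rw [h5.agr m h2, h3]
      · rw [h5.agr' m h2]; exact h4
    · exact ⟨q, fun hh => absurd hh hq⟩
  obtain ⟨c, hc0, hcs⟩ := exists_chain _ p hstep
  have hinv : ∀ j, Ext p.M p (c j) := by
    intro j
    induction j with
    | zero => rw [hc0]; exact Ext.rfl _ _
    | succ j ih => exact ih.trans (hcs j ih).1
  obtain ⟨x, x', hx, hx'⟩ := pair_limit hc c (fun j => (hcs j (hinv j)).1.mono (Nat.zero_le _))
    (fun j => (hcs j (hinv j)).2.2.1) (fun j => (hcs j (hinv j)).2.2.2.1)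
  have hMs : StrictMono fun j => (c j).M := strictMono_nat_of_lt_succ
    (fun j => (hcs j (hinv j)).2.1)
  have hks : StrictMono fun j => (c j).k := strictMono_nat_of_lt_succ
    (fun j => (hcs j (hinv j)).2.2.1)
  have hks' : StrictMono fun j => (c j).k' := strictMono_nat_of_lt_succ
    (fun j => (hcs j (hinv j)).2.2.2.1)
  have hne : ¬ SameR (h x) (h x') := by
    intro hs
    obtain ⟨b, hb⟩ := hs.1 a
    obtain ⟨v, hv1, hv2⟩ := (h x').inf (b + 1)
    have hv3 : v < (c (v + 1)).M := lt_of_lt_of_le (Nat.lt_succ_self v) (hMs.id_le (v + 1))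
    obtain ⟨m, hm1, hm2, hm3⟩ := (hcs (v + 1) (hinv (v + 1))).2.2.2.2
    have h1 := hm3 v hv3 (by rw [← (hx' (v + 1)).2 v hv3]; exact hv2)
    have h2 := hb m (by rw [(hx (v + 1 + 1)).2 m hm1, hm2])
    rw [(hx' (v + 1 + 1)).2 m hm1] at h2
    omega
  obtain ⟨r, hr⟩ := hDo x x' (hD x x' hne)
  refine ⟨c r, hinv r, fun y hy y' hy' => hr y ?_ y' ?_⟩
  · intro i hi
    have hi' : i < (c r).k := lt_of_lt_of_le hi (hks.id_le r)
    exact (hy i hi').trans ((hx r).1 i hi').symm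
  · intro i hi
    have hi' : i < (c r).k' := lt_of_lt_of_le hi (hks'.id_le r)
    exact (hy' i hi').trans ((hx' r).1 i hi').symm

/-- The main combinatorial statement. -/
theorem outer (hc : ∀ m z, ∃ n, ∀ y ∈ cyl z n, (h y).f m = (h z).f m)
    (D : ℕ → (ℕ → ℕ) → (ℕ → ℕ) → Prop)
    (hDo : ∀ n x x', D n x x' → ∃ r, ∀ y ∈ cyl x r, ∀ y' ∈ cyl x' r, D n y y')
    (hD : ∀ n x x', ¬ SameR (h x) (h x') → D n x x') (p : Cond h) :
    ∃ x x', SameR (h x) (h x') ∧ ∀ n, D n x x' := by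
  have hstep : ∀ (n : ℕ) (q : Cond h), ∃ r : Cond h,
      Ext q.M q r ∧ q.M < r.M ∧ q.k < r.k ∧ q.k' < r.k' ∧
        ∀ y ∈ cyl r.z r.k, ∀ y' ∈ cyl r.z' r.k', D n y y' := by
    intro n q
    obtain ⟨r, h1, h2⟩ := inner hc (D n) (hDo n) (hD n) q
    obtain ⟨s, h5, h6, h7, h8⟩ := full_step r
    exact ⟨s, h1.trans (h5.mono h1.M_le), lt_of_le_of_lt h1.M_le h6, lt_of_le_of_lt h1.k_le h7,
      lt_of_le_of_lt h1.k'_le h8,
      fun y hy y' hy' => h2 y (cyl_sub h5.mem h5.k_le hy) y' (cyl_sub h5.mem' h5.k'_le hy')⟩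
  obtain ⟨c, -, hcs⟩ := exists_chain _ p hstep
  obtain ⟨x, x', hx, hx'⟩ := pair_limit hc c (fun j => (hcs j).1.mono (Nat.zero_le _))
    (fun j => (hcs j).2.2.1) (fun j => (hcs j).2.2.2.1)
  have hMs : StrictMono fun j => (c j).M := strictMono_nat_of_lt_succ (fun j => (hcs j).2.1)
  have hgood : ∀ j i, j ≤ i → Good (c j).M (c i) := by
    intro j i hji
    induction i, hji using Nat.le_induction with
    | base => exact good_self _
    | succ i hji ih => exact (hcs i).1.good _ (hMs.monotone hji) ih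
  have hlt : ∀ m j, m < (c (max j (m + 1))).M := fun m j =>
    lt_of_lt_of_le (lt_of_lt_of_le (Nat.lt_succ_self m) (le_max_right _ _)) (hMs.id_le _)
  refine ⟨x, x', ⟨fun a => ?_, fun a => ?_⟩,
    fun n => (hcs n).2.2.2.2 x (hx (n + 1)).1 x' (hx' (n + 1)).1⟩
  · obtain ⟨v, hv1, hv2⟩ := (h x).inf (a + 1)
    have hv3 : v < (c (v + 1)).M := lt_of_lt_of_le (Nat.lt_succ_self v) (hMs.id_le (v + 1))
    refine ⟨(c (v + 1)).M, fun m hm => ?_⟩
    have hi := hlt m (v + 1)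
    have hv4 : v < (c (max (v + 1) (m + 1))).M :=
      lt_of_lt_of_le hv3 (hMs.monotone (le_max_left _ _))
    have := (hgood (v + 1) _ (le_max_left (v + 1) (m + 1))).1 m hi v hv3
      (by rw [← (hx _).2 v hv4]; exact hv2) (by rw [← (hx _).2 m hi]; omega)
    rw [(hx' _).2 m hi]
    exact this.le
  · obtain ⟨v, hv1, hv2⟩ := (h x').inf (a + 1)
    have hv3 : v < (c (v + 1)).M := lt_of_lt_of_le (Nat.lt_succ_self v) (hMs.id_le (v + 1))
    refine ⟨(c (v + 1)).M, fun m hm => ?_⟩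
    have hi := hlt m (v + 1)
    have hv4 : v < (c (max (v + 1) (m + 1))).M :=
      lt_of_lt_of_le hv3 (hMs.monotone (le_max_left _ _))
    have := (hgood (v + 1) _ (le_max_left (v + 1) (m + 1))).2 m hi v hv3
      (by rw [← (hx' _).2 v hv4]; exact hv2) (by rw [← (hx' _).2 m hi]; omega)
    rw [(hx _).2 m hi]
    exact this.le

end Pool.Agent.Lib.MP_2823fe_lc
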