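import Mathlib
import Pool.Agent.Lib.MP_2823fe_lc.Defs
import Pool.Agent.Lib.MP_2823fe_lc.Pairs

/-!
Translation between the definitions of the problem and the combinatorial core.
-/

set_option autoImplicit false

namespace Pool.Agent.Lib.MP_2823fe_lc

open Filter Topology

open Classical in
/-- The least element of the class of `m`. -/
noncomputable def rho (A : Einf) (m : ℕ) : ℕ := Nat.find (⟨m, A.1.refl' m⟩ : ∃ k, A.1.r k m)

theorem rho_rel (A : Einf) (m : ℕ) : A.1.r (rho A m) m := by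
  classical
  exact Nat.find_spec (⟨m, A.1.refl' m⟩ : ∃ k, A.1.r k m)

theorem rho_le_of (A : Einf) {k m : ℕ} (h : A.1.r k m) : rho A m ≤ k := by
  classical
  exact Nat.find_min' (⟨m, A.1.refl' m⟩ : ∃ k, A.1.r k m) h

theorem rel_iff (A : Einf) (i j : ℕ) : A.1.r i j ↔ rho A i = rho A j := by
  constructor
  · intro h
    exact le_antisymm (rho_le_of A (A.1.trans' (rho_rel A j) (A.1.symm' h)))
      (rho_le_of A (A.1.trans' (rho_rel A i) h))
  · intro h
    exact A.1.trans' (A.1.symm' (rho_rel A i)) (h ▸ rho_rel A j)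

theorem rho_le (A : Einf) (m : ℕ) : rho A m ≤ m := rho_le_of A (A.1.refl' m)

theorem rho_idem (A : Einf) (m : ℕ) : rho A (rho A m) = rho A m := (rel_iff A _ _).1 (rho_rel A m)

theorem min_iff (A : Einf) (m : ℕ) : (∀ k, A.1.r k m → m ≤ k) ↔ rho A m = m :=
  ⟨fun h => le_antisymm (rho_le A m) (h _ (rho_rel A m)), fun h _ hk => h ▸ rho_le_of A hk⟩

theorem rho_inf (A : Einf) (n : ℕ) : ∃ p, n ≤ p ∧ rho A p = p := by
  by_contra hcon
  have hlt : ∀ m, rho A m < n := by
    intro m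
    by_contra hh
    exact hcon ⟨rho A m, not_lt.mp hh, rho_idem A m⟩
  have hs : Function.Surjective (fun i : Fin n => (Quotient.mk A.1 i : Quotient A.1)) := by
    intro q
    induction q using Quotient.inductionOn with
    | h m => exact ⟨⟨rho A m, hlt m⟩, Quotient.sound (rho_rel A m)⟩
  have := A.2
  exact not_finite_iff_infinite.mpr this (Finite.of_surjective _ hs)

theorem mins_infinite (A : Einf) : {m | ∀ k, A.1.r k m → m ≤ k}.Infinite := by
  refine Set.infinite_of_forall_exists_gt fun n => ?_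
  obtain ⟨p, hp1, hp2⟩ := rho_inf A (n + 1)
  exact ⟨p, (min_iff A p).2 hp2, hp1⟩

theorem mu_strictMono (A : Einf) : StrictMono (mu A) := Nat.nth_strictMono (mins_infinite A)

theorem rho_mu (A : Einf) (n : ℕ) : rho A (mu A n) = mu A n :=
  (min_iff A _).1 (Nat.nth_mem_of_infinite (mins_infinite A) n)

theorem exists_mu (A : Einf) {m : ℕ} (h : rho A m = m) : ∃ n, n ≤ m ∧ mu A n = m := by
  obtain ⟨n, hn⟩ := Nat.subset_range_nth (p := fun m => ∀ k, A.1.r k m → m ≤ k)
    ((min_iff A m).2 h)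
  refine ⟨n, ?_, hn⟩
  have := (mu_strictMono A).id_le n
  change n ≤ Nat.nth _ n at this
  omega

/-- The least-element map of a partition. -/
noncomputable def toRet (A : Einf) : Ret := ⟨rho A, rho_le A, rho_idem A, rho_inf A⟩

/-- The partition with a given least-element map. -/
def ofRet (R : Ret) : Einf :=
  ⟨Setoid.ker R.f, by
    choose p hp1 hp2 using R.inf
    by_contra hh
    have hfin : Finite (Quotient (Setoid.ker R.f)) := not_infinite_iff_finite.mp hh
    have h0 : Finite (Set.range R.f) := Finite.of_equiv _ (Setoid.quotientKerEquivRange R.f)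
    have h1 : (Set.range R.f).Finite := Set.toFinite _
    obtain ⟨b, hb⟩ := h1.bddAbove
    have := hb ⟨p (b + 1), hp2 (b + 1)⟩
    have := hp1 (b + 1)
    omega⟩

theorem rho_ofRet (R : Ret) (m : ℕ) : rho (ofRet R) m = R.f m := by
  apply le_antisymm
  · exact rho_le_of _ (R.idem m)
  · have h : R.f (rho (ofRet R) m) = R.f m := rho_rel (ofRet R) m
    rw [← h]
    exact R.le _

theorem le_iff (A B : Einf) : (∀ i j, B.1.r i j → A.1.r i j) ↔ Le (toRet A) (toRet B) := by
  constructor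
  · intro h m
    exact (rel_iff A _ _).1 (h _ _ (rho_rel B m))
  · intro h i j hij
    rw [rel_iff] at hij ⊢
    have h1 : rho A (rho B i) = rho A i := h i
    have h2 : rho A (rho B j) = rho A j := h j
    rw [← h1, ← h2, hij]

theorem restr_eq_iff (A B : Einf) (n n' : ℕ) :
    restr A n = restr B n' ↔ mu A n = mu B n' ∧ ∀ m, m < mu A n → rho A m = rho B m := by
  unfold restr
  generalize mu A n = l
  generalize mu B n' = l'
  constructor
  · intro h
    obtain ⟨rfl, h2⟩ := Sigma.mk.inj h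
    have h3 := eq_of_heq h2
    refine ⟨rfl, fun m hm => ?_⟩
    have key : ∀ i j : Fin l, A.1.r i j ↔ B.1.r i j := by
      intro i j
      change (Setoid.comap Fin.val A.1).r i j ↔ (Setoid.comap Fin.val B.1).r i j
      rw [h3]
    apply le_antisymm
    · exact rho_le_of A ((key ⟨rho B m, lt_of_le_of_lt (rho_le B m) hm⟩ ⟨m, hm⟩).2 (rho_rel B m))
    · exact rho_le_of B ((key ⟨rho A m, lt_of_le_of_lt (rho_le A m) hm⟩ ⟨m, hm⟩).1 (rho_rel A m))
  · rintro ⟨rfl, h⟩
    congr 1
    ext i j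
    change A.1.r i j ↔ B.1.r i j
    rw [rel_iff, rel_iff, h i i.2, h j j.2]

theorem start {C : Set Einf} (hC : ¬ InI C) :
    ∃ (T : Ret) (M : ℕ), 0 < M ∧ P (toRet '' C) T M T := by
  unfold InI at hC
  push Not at hC
  obtain ⟨s, A₀, ⟨T, hT1, n, hT2⟩, hC⟩ := hC
  refine ⟨toRet T, mu T n + 1, Nat.succ_pos _, ?_⟩
  intro B' hB1 hB2
  have hr : toRet (ofRet B') = B' := by
    cases B'
    simp only [toRet, Ret.mk.injEq]
    funext m
    exact rho_ofRet _ m
  have hfix : rho (ofRet B') (mu T n) = mu T n := by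
    rw [rho_ofRet, hB2 _ (Nat.lt_succ_self _)]
    exact rho_mu T n
  obtain ⟨n', -, hn'⟩ := exists_mu _ hfix
  have hmem : ofRet B' ∈ cube s A₀ := by
    refine ⟨fun i j hij => (le_iff (ofRet B') T).2 (by rw [hr]; exact hB1) i j (hT1 i j hij),
      n', ?_⟩
    rw [← hT2, restr_eq_iff]
    refine ⟨hn', fun m hm => ?_⟩
    rw [rho_ofRet, hB2 m (by omega)]
    rfl
  obtain ⟨A, ⟨hA1, n'', hA2⟩, hAC⟩ := hC _ hmem
  refine ⟨toRet A, ⟨A, hAC, rfl⟩, by rw [← hr]; exact (le_iff _ _).1 hA1, ?_⟩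
  rw [← hT2, restr_eq_iff] at hA2
  intro m hm
  change rho A m = rho T m
  rcases Nat.lt_succ_iff_lt_or_eq.mp hm with h | h
  · exact hA2.2 m (by omega)
  · rw [h, rho_mu T n, ← hA2.1, rho_mu]

theorem univ_pos : ¬ InI Set.univ := by
  intro h
  let A : Einf := ofRet ⟨id, fun _ => le_rfl, fun _ => rfl, fun n => ⟨n, le_rfl, rfl⟩⟩
  obtain ⟨B, ⟨-, n, hn⟩, hB⟩ := h (restr A 0) A ⟨A, fun _ _ h => h, 0, rfl⟩
  have : B ∈ cube (restr A 0) B ∩ Set.univ := ⟨⟨fun _ _ h => h, n, hn⟩, trivial⟩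
  rw [hB] at this
  exact this

theorem continuous_code : Continuous code := continuous_induced_dom

theorem eventually_code (A : Einf) (n m : ℕ) :
    ∀ᶠ A' in 𝓝 A, ∀ j, j ≤ m → (A'.1.r j (mu A' n) ↔ A.1.r j (mu A n)) := by
  have h1 : ∀ j, ∀ᶠ A' in 𝓝 A, code A' (n, j) = code A (n, j) := by
    intro j
    have hc : Continuous fun A' => code A' (n, j) := (continuous_apply (n, j)).comp continuous_code
    exact (hc.isOpen_preimage {code A (n, j)} (isOpen_discrete _)).mem_nhds rfl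
  have h2 : ∀ᶠ A' in 𝓝 A, ∀ j ∈ Finset.range (m + 1), code A' (n, j) = code A (n, j) :=
    (Finset.range (m + 1)).eventually_all.2 fun j _ => h1 j
  filter_upwards [h2] with A' hA' j hj
  have := hA' j (Finset.mem_range.2 (by omega))
  simpa [code] using this

theorem continuous_rho (m : ℕ) : Continuous fun A => rho A m := by
  apply IsLocallyConstant.continuous
  rw [IsLocallyConstant.iff_eventually_eq]
  intro A
  obtain ⟨n, -, hn⟩ := exists_mu A (rho_idem A m)
  filter_upwards [eventually_code A n m] with A' hA'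
  have h1 : A'.1.r m (mu A' n) := (hA' m le_rfl).2 (by rw [hn]; exact A.1.symm' (rho_rel A m))
  apply le_antisymm
  · apply rho_le_of
    refine A'.1.trans' ((hA' _ (rho_le A m)).2 ?_) (A'.1.symm' h1)
    rw [hn]
  · apply rho_le_of
    have h2 := (hA' _ (rho_le A' m)).1 (A'.1.trans' (rho_rel A' m) h1)
    rw [hn] at h2
    exact A.1.trans' h2 (rho_rel A m)

theorem continuous_mu (n : ℕ) : Continuous fun A => mu A n := by
  apply IsLocallyConstant.continuous
  rw [IsLocallyConstant.iff_eventually_eq]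
  intro A
  filter_upwards [eventually_code A n (mu A n)] with A' hA'
  have h1 : mu A' n ≤ mu A n := by
    rw [← rho_mu A' n]
    exact rho_le_of _ ((hA' _ le_rfl).2 (A.1.refl' _))
  apply le_antisymm h1
  rw [← rho_mu A n]
  exact rho_le_of _ ((hA' _ h1).1 (A'.1.refl' _))

theorem continuous_ev {X : Type*} [TopologicalSpace X] {a : X → ℕ → ℕ} {b : X → ℕ}
    (ha : Continuous a) (hb : Continuous b) : Continuous fun x => a x (b x) := by
  apply IsLocallyConstant.continuous
  rw [IsLocallyConstant.iff_eventually_eq]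
  intro x
  have h1 : ∀ᶠ y in 𝓝 x, b y = b x :=
    (hb.isOpen_preimage {b x} (isOpen_discrete _)).mem_nhds rfl
  have h2 : ∀ᶠ y in 𝓝 x, a y (b x) = a x (b x) :=
    (((continuous_apply (b x)).comp ha).isOpen_preimage {a x (b x)}
      (isOpen_discrete _)).mem_nhds rfl
  filter_upwards [h1, h2] with y hy1 hy2
  rw [hy1, hy2]

/-- The closed embedding into a product of Baire spaces. -/
noncomputable def emb (A : Einf) : (ℕ → ℕ) × (ℕ → ℕ) := (rho A, mu A)

theorem continuous_emb : Continuous emb :=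
  (continuous_pi continuous_rho).prodMk (continuous_pi continuous_mu)

theorem isClosedEmbedding_emb : IsClosedEmbedding emb := by
  refine ⟨⟨?_, ?_⟩, ?_⟩
  · let Ψ : (ℕ → ℕ) × (ℕ → ℕ) → ℕ × ℕ → Bool := fun q p => decide (q.1 p.2 = q.2 p.1)
    have hΨ : Continuous Ψ := by
      refine continuous_pi fun p => ?_
      have h1 : Continuous fun q : (ℕ → ℕ) × (ℕ → ℕ) => (q.1 p.2, q.2 p.1) := by fun_prop
      exact (continuous_of_discreteTopology (f := fun u : ℕ × ℕ => decide (u.1 = u.2))).comp h1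
    have hcomp : Ψ ∘ emb = code := by
      funext A p
      simp only [Ψ, emb, code, Function.comp]
      rw [rel_iff, rho_mu]
      congr
    exact IsInducing.of_comp continuous_emb hΨ (hcomp ▸ ⟨rfl⟩)
  · intro A B hAB
    have h1 : rho A = rho B := congrArg Prod.fst hAB
    apply Subtype.ext
    ext i j
    change A.1.r i j ↔ B.1.r i j
    rw [rel_iff, rel_iff, h1]
  · have hr : Set.range emb = ⋂ m : ℕ, {q : (ℕ → ℕ) × (ℕ → ℕ) | q.1 m ≤ m ∧ q.1 (q.1 m) = q.1 m ∧
        q.2 m < q.2 (m + 1) ∧ q.1 (q.2 m) = q.2 m ∧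
        (q.1 m = m → ∃ n : Fin (m + 1), q.2 n = m)} := by
      ext q
      simp only [Set.mem_iInter, Set.mem_ofPred_eq]
      constructor
      · rintro ⟨A, rfl⟩ m
        refine ⟨rho_le A m, rho_idem A m, mu_strictMono A (Nat.lt_succ_self m), rho_mu A m, ?_⟩
        intro h
        obtain ⟨n, h1, h2⟩ := exists_mu A h
        exact ⟨⟨n, by omega⟩, h2⟩
      · intro h
        have hs : StrictMono q.2 := strictMono_nat_of_lt_succ fun m => (h m).2.2.1
        let R : Ret := ⟨q.1, fun m => (h m).1, fun m => (h m).2.1,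
          fun n => ⟨q.2 n, hs.id_le n, (h n).2.2.2.1⟩⟩
        refine ⟨ofRet R, Prod.ext (funext fun m => rho_ofRet R m) ?_⟩
        refine ((mu_strictMono (ofRet R)).range_inj hs).1 ?_
        ext m
        constructor
        · rintro ⟨n, rfl⟩
          have h1 := rho_mu (ofRet R) n
          rw [rho_ofRet] at h1
          obtain ⟨n', hn'⟩ := (h _).2.2.2.2 h1
          exact ⟨n', hn'⟩
        · rintro ⟨n, rfl⟩
          obtain ⟨n', -, hn'⟩ := exists_mu (ofRet R) (m := q.2 n)
            (by rw [rho_ofRet]; exact (h n).2.2.2.1)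
          exact ⟨n', hn'⟩
    rw [hr]
    refine isClosed_iInter fun m => ?_
    have h1 : Continuous fun q : (ℕ → ℕ) × (ℕ → ℕ) => q.1 (q.1 m) :=
      continuous_ev continuous_fst (by fun_prop)
    have h2 : Continuous fun q : (ℕ → ℕ) × (ℕ → ℕ) => q.1 (q.2 m) :=
      continuous_ev continuous_fst (by fun_prop)
    have h3 : Continuous fun q : (ℕ → ℕ) × (ℕ → ℕ) =>
        (q.1 m, q.1 (q.1 m), q.2 m, q.2 (m + 1), q.1 (q.2 m), fun n : Fin (m + 1) => q.2 n) := by
      refine Continuous.prodMk (by fun_prop) (Continuous.prodMk h1 (Continuous.prodMk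
        (by fun_prop) (Continuous.prodMk (by fun_prop) (Continuous.prodMk h2 (by fun_prop)))))
    exact (isClosed_discrete {u : ℕ × ℕ × ℕ × ℕ × ℕ × (Fin (m + 1) → ℕ) |
      u.1 ≤ m ∧ u.2.1 = u.1 ∧ u.2.2.1 < u.2.2.2.1 ∧ u.2.2.2.2.1 = u.2.2.1 ∧
      (u.1 = m → ∃ n, u.2.2.2.2.2 n = m)}).preimage h3

instance polishEinf : PolishSpace Einf := isClosedEmbedding_emb.polishSpace

instance borelEinf : BorelSpace Einf := ⟨rfl⟩

/-- The counterexample: the two partitions generate the same ideal. -/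
def Same (A B : Einf) : Prop := SameR (toRet A) (toRet B)

theorem same_equiv : Equivalence Same := by
  refine ⟨fun A => ⟨fun a => ⟨a, fun _ h => h⟩, fun a => ⟨a, fun _ h => h⟩⟩,
    fun h => ⟨h.2, h.1⟩, fun h1 h2 => ⟨fun a => ?_, fun a => ?_⟩⟩
  · obtain ⟨b, hb⟩ := h1.1 a
    obtain ⟨c, hc⟩ := h2.1 b
    exact ⟨c, fun m hm => hc m (hb m hm)⟩
  · obtain ⟨b, hb⟩ := h2.2 a
    obtain ⟨c, hc⟩ := h1.2 b
    exact ⟨c, fun m hm => hc m (hb m hm)⟩

theorem same_measurable : MeasurableSet {p : Einf × Einf | Same p.1 p.2} := by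
  have h1 : ∀ m, Measurable fun p : Einf × Einf => rho p.1 m :=
    fun m => (continuous_rho m).measurable.comp measurable_fst
  have h2 : ∀ m, Measurable fun p : Einf × Einf => rho p.2 m :=
    fun m => (continuous_rho m).measurable.comp measurable_snd
  have h3 : ∀ m a, MeasurableSet {p : Einf × Einf | rho p.1 m ≤ a} :=
    fun m a => h1 m (MeasurableSet.of_discrete (s := {u | u ≤ a}))
  have h4 : ∀ m a, MeasurableSet {p : Einf × Einf | rho p.2 m ≤ a} :=
    fun m a => h2 m (MeasurableSet.of_discrete (s := {u | u ≤ a}))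
  have e : {p : Einf × Einf | Same p.1 p.2} =
      (⋂ a, ⋃ b, ⋂ m, ({p : Einf × Einf | rho p.1 m ≤ a}ᶜ ∪ {p | rho p.2 m ≤ b})) ∩
      (⋂ a, ⋃ b, ⋂ m, ({p : Einf × Einf | rho p.2 m ≤ a}ᶜ ∪ {p | rho p.1 m ≤ b})) := by
    ext p
    simp only [Same, SameR, toRet, Set.mem_ofPred_eq, Set.mem_inter_iff, Set.mem_iInter,
      Set.mem_iUnion, Set.mem_union, Set.mem_compl_iff, imp_iff_not_or]
  rw [e]
  exact (MeasurableSet.iInter fun a => MeasurableSet.iUnion fun b => MeasurableSet.iInter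
    fun m => (h3 m a).compl.union (h4 m b)).inter
    (MeasurableSet.iInter fun a => MeasurableSet.iUnion fun b => MeasurableSet.iInter
    fun m => (h4 m a).compl.union (h3 m b))

theorem eventually_cyl {x : ℕ → ℕ} {p : (ℕ → ℕ) → Prop} (h : ∀ᶠ y in 𝓝 x, p y) :
    ∃ n, ∀ y ∈ cyl x n, p y := by
  rw [nhds_pi, Filter.Eventually, mem_pi] at h
  obtain ⟨I, hI, t, ht, hsub⟩ := h
  obtain ⟨b, hb⟩ := hI.bddAbove
  refine ⟨b + 1, fun y hy => hsub fun i hi => ?_⟩
  rw [hy i (Nat.lt_succ_of_le (hb hi))]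
  exact mem_of_mem_nhds (ht i)

theorem not_red {Y : Type} [MeasurableSpace Y] {F : Y → Y → Prop} (hF : Hypersmooth F)
    {C : Set Einf} (hCm : MeasurableSet C) (hC : ¬ InI C) :
    ¬ BorelRed (fun x y : C => Same x y) F := by
  rintro ⟨f, hf, hred⟩
  obtain ⟨G, hG1, -, hG2⟩ := hF
  choose g hg1 hg2 using fun n => (hG1 n).2
  have := hCm.standardBorel
  let Φ : C → Einf × (ℕ → ℕ → Bool) := fun x => (x.1, fun n => g n (f x))
  have hΦ : Measurable Φ :=
    measurable_subtype_coe.prodMk (measurable_pi_lambda _ fun n => (hg1 n).comp hf)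
  have han : MeasureTheory.AnalyticSet (Φ '' Set.univ) := MeasurableSet.univ.analyticSet_image hΦ
  obtain ⟨T, M, hM, hP⟩ := start hC
  rw [MeasureTheory.AnalyticSet] at han
  rcases han with han | ⟨H, hH, hrange⟩
  · obtain ⟨A, ⟨A', hA', rfl⟩, -⟩ := hP T (Le.rfl _) (Agr.rfl _ _)
    have : Φ ⟨A', hA'⟩ ∈ Φ '' Set.univ := ⟨_, trivial, rfl⟩
    rw [han] at this
    exact this
  have hpre : ∀ z, ∃ x : C, Φ x = H z := by
    intro z
    have : H z ∈ Φ '' Set.univ := hrange ▸ ⟨z, rfl⟩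
    obtain ⟨x, -, hx⟩ := this
    exact ⟨x, hx⟩
  let h : (ℕ → ℕ) → Ret := fun z => toRet (H z).1
  have hc : ∀ m z, ∃ n, ∀ y ∈ cyl z n, (h y).f m = (h z).f m := by
    intro m z
    have h1 : Continuous fun y => rho (H y).1 m := (continuous_rho m).comp hH.fst
    exact eventually_cyl ((h1.isOpen_preimage {rho (H z).1 m} (isOpen_discrete _)).mem_nhds rfl)
  have himg : h '' cyl (fun _ => 0) 0 = toRet '' C := by
    ext R
    constructor
    · rintro ⟨z, -, rfl⟩
      obtain ⟨x, hx⟩ := hpre z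
      exact ⟨x.1, x.2, by simp only [h, ← hx, Φ]⟩
    · rintro ⟨A, hA, rfl⟩
      have : Φ ⟨A, hA⟩ ∈ Set.range H := hrange ▸ ⟨_, trivial, rfl⟩
      obtain ⟨z, hz⟩ := this
      exact ⟨z, fun i hi => absurd hi (Nat.not_lt_zero i), by simp only [h, hz, Φ]⟩
  let p : Cond h := ⟨T, T, T, M, fun _ => 0, fun _ => 0, 0, 0, hM, Le.rfl _, Le.rfl _,
    himg ▸ hP, himg ▸ hP⟩
  have hiff : ∀ z z', SameR (h z) (h z') ↔ ∃ n, (H z).2 n = (H z').2 n := by
    intro z z'
    obtain ⟨x, hx⟩ := hpre z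
    obtain ⟨x', hx'⟩ := hpre z'
    simp only [h, ← hx, ← hx', Φ]
    refine (hred x x').trans ?_
    rw [hG2]
    exact exists_congr fun n => hg2 n _ _
  obtain ⟨x, x', hs, hD⟩ := outer hc (fun n z z' => (H z).2 n ≠ (H z').2 n) (by
      intro n x x' hne
      obtain ⟨i, hi⟩ := Function.ne_iff.mp hne
      have h1 : Continuous fun y => (H y).2 n i :=
        (continuous_apply i).comp ((continuous_apply n).comp hH.snd)
      obtain ⟨r, hr⟩ := eventually_cyl
        ((h1.isOpen_preimage {(H x).2 n i} (isOpen_discrete _)).mem_nhds rfl)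
      obtain ⟨r', hr'⟩ := eventually_cyl
        ((h1.isOpen_preimage {(H x').2 n i} (isOpen_discrete _)).mem_nhds rfl)
      refine ⟨max r r', fun y hy y' hy' heq => hi ?_⟩
      have e1 : (H y).2 n i = (H x).2 n i :=
        hr y (cyl_sub (cyl_self x r) (le_max_left r r') hy)
      have e2 : (H y').2 n i = (H x').2 n i :=
        hr' y' (cyl_sub (cyl_self x' r') (le_max_right r r') hy')
      rw [← e1, ← e2, heq])
    (fun n x x' hne heq => hne ((hiff x x').2 ⟨n, heq⟩)) p
  obtain ⟨n, hn⟩ := (hiff x x').1 hs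
  exact hD n hn

end Pool.Agent.Lib.MP_2823fe_lc
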